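import Mathlib
import Pool.Agent.Helper15.UH.Goals

/-!
# Packet ABSU for `MP_ba83fc_ag`
-/

set_option linter.unusedSectionVars false

namespace Helper98.Absu

open UnrCoh

section Val

variable {L : Type} [Field L]

/-- an additive integer-valued valuation attached to a discrete valuation ring of `L` -/
theorem exists_val (O : ValuationSubring L) (h : IsDiscreteValuationRing O) :
    ∃ n : L → ℤ, (∀ z w, z ≠ 0 → w ≠ 0 → n (z * w) = n z + n w) ∧
      (∀ z, z ≠ 0 → (O.valuation z = 1 ↔ n z = 0)) ∧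
      (∀ z, z ≠ 0 → (O.valuation z < 1 ↔ 0 < n z)) ∧
      (∀ m : ℤ, ∃ z, z ≠ 0 ∧ n z = m) := by
  obtain ⟨ϖ, hϖ⟩ := IsDiscreteValuationRing.exists_irreducible O
  set g := O.valuation (ϖ : L) with hg
  have hϖ0 : (ϖ : L) ≠ 0 := by
    intro h0
    exact hϖ.ne_zero (Subtype.ext h0)
  have hg0 : g ≠ 0 := by
    rw [hg]
    exact (Valuation.ne_zero_iff _).mpr hϖ0
  have hg1 : g < 1 := by
    rw [hg, ← O.valuation_lt_one_iff]
    exact hϖ.not_isUnit
  have hgpos : 0 < g := zero_lt_iff.mpr hg0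
  have hO : ∀ z : O, z ≠ 0 → ∃ m : ℕ, O.valuation (z : L) = g ^ m := by
    intro z hz
    obtain ⟨m, u, hu⟩ := IsDiscreteValuationRing.eq_unit_mul_pow_irreducible hz hϖ
    refine ⟨m, ?_⟩
    have : (z : L) = ((u : O) : L) * (ϖ : L) ^ m := by
      rw [hu]; push_cast; rfl
    rw [this, map_mul, map_pow, O.valuation_unit, one_mul]
  have hex : ∀ z : L, z ≠ 0 → ∃ m : ℤ, O.valuation z = g ^ m := by
    intro z hz
    rcases O.mem_or_inv_mem z with hzO | hzO
    · obtain ⟨m, hm⟩ := hO ⟨z, hzO⟩ (by intro h0; exact hz (congrArg Subtype.val h0))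
      exact ⟨m, by rw [zpow_natCast]; exact hm⟩
    · obtain ⟨m, hm⟩ := hO ⟨z⁻¹, hzO⟩ (by
        intro h0
        exact inv_ne_zero hz (congrArg Subtype.val h0))
      refine ⟨-m, ?_⟩
      have h2 : O.valuation z⁻¹ = g ^ m := hm
      rw [map_inv₀] at h2
      rw [zpow_neg, zpow_natCast, ← h2, inv_inv]
  classical
  have hinj : ∀ a b : ℤ, g ^ a = g ^ b → a = b := by
    intro a b hab
    exact zpow_right_injective₀ hgpos hg1.ne hab
  refine ⟨fun z => if hz : z ≠ 0 then Classical.choose (hex z hz) else 0, ?_, ?_, ?_, ?_⟩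
  · intro z w hz hw
    have hzw : z * w ≠ 0 := mul_ne_zero hz hw
    simp only [dif_pos hz, dif_pos hw, dif_pos hzw]
    apply hinj
    rw [← Classical.choose_spec (hex _ hzw), zpow_add₀ hg0, ← Classical.choose_spec (hex _ hz),
      ← Classical.choose_spec (hex _ hw), map_mul]
  · intro z hz
    simp only [dif_pos hz]
    have h1 := Classical.choose_spec (hex _ hz)
    constructor
    · intro h2
      apply hinj
      rw [← h1, h2, zpow_zero]
    · intro h2
      rw [h1, h2, zpow_zero]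
  · intro z hz
    simp only [dif_pos hz]
    have h1 := Classical.choose_spec (hex _ hz)
    have hanti := zpow_right_strictAnti₀ hgpos hg1
    constructor
    · intro h2
      rw [h1, ← zpow_zero g] at h2
      exact hanti.lt_iff_gt.mp h2
    · intro h2
      rw [h1, ← zpow_zero g]
      exact hanti.lt_iff_gt.mpr h2
  · intro m
    have hz : (ϖ : L) ^ m ≠ 0 := zpow_ne_zero _ hϖ0
    refine ⟨_, hz, ?_⟩
    simp only [dif_pos hz]
    apply hinj
    rw [← Classical.choose_spec (hex _ hz), map_zpow₀]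

end Val


section Ctx

variable {L M : Type} [Field L] [Algebra ℂ L] [AddCommGroup M]

/-- the standing hypotheses -/
structure Ctx (S : Lˣ → Lˣ → Lˣ → Lˣ → M) (O : ValuationSubring L) (n : L → ℤ) : Prop where
  sym : Sym4 S
  cst : ∀ c : ℂ, algebraMap ℂ L c ∈ O
  nmul : ∀ z w, z ≠ 0 → w ≠ 0 → n (z * w) = n z + n w
  n1 : ∀ z, z ≠ 0 → (O.valuation z = 1 ↔ n z = 0)
  nlt : ∀ z, z ≠ 0 → (O.valuation z < 1 ↔ 0 < n z)
  nsurj : ∀ m : ℤ, ∃ z, z ≠ 0 ∧ n z = m
  pu : ∀ b c d e : Lˣ, O.valuation ((b : L) - 1) < 1 → S b c d e = 0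

/-- elements with trivial symbols -/
def Dead (S : Lˣ → Lˣ → Lˣ → Lˣ → M) (z : L) : Prop :=
  ∃ b : Lˣ, (b : L) = z ∧ ∀ c d e, S b c d e = 0

variable {S : Lˣ → Lˣ → Lˣ → Lˣ → M} {O : ValuationSubring L} {n : L → ℤ}

namespace Ctx

variable (K : Ctx S O n)

include K

theorem S_one (c d e : Lˣ) : S 1 c d e = 0 := by
  have h := K.sym.mul 1 1 c d e
  rw [mul_one] at h
  exact (left_eq_add.mp h)

theorem S_inv (b c d e : Lˣ) : S b⁻¹ c d e = - S b c d e := by
  have h := K.sym.mul b⁻¹ b c d e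
  rw [inv_mul_cancel, K.S_one] at h
  exact (neg_eq_of_add_eq_zero_left h.symm).symm

theorem dead_mul {z w : L} (hz : Dead S z) (hw : Dead S w) : Dead S (z * w) := by
  obtain ⟨a, rfl, ha⟩ := hz
  obtain ⟨b, rfl, hb⟩ := hw
  exact ⟨a * b, by simp, fun c d e => by rw [K.sym.mul, ha, hb, add_zero]⟩

theorem dead_inv {z : L} (hz : Dead S z) : Dead S z⁻¹ := by
  obtain ⟨a, rfl, ha⟩ := hz
  exact ⟨a⁻¹, by simp, fun c d e => by rw [K.S_inv, ha, neg_zero]⟩

theorem dead_div {z w : L} (hz : Dead S z) (hw : Dead S w) : Dead S (z / w) := by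
  rw [div_eq_mul_inv]
  exact K.dead_mul hz (K.dead_inv hw)

theorem dead_sq {z : L} (hz : z ≠ 0) : Dead S (z ^ 2) := by
  refine ⟨(Units.mk0 z hz) ^ 2, by simp, fun c d e => ?_⟩
  rw [K.sym.swap1]
  exact K.sym.norm c ((Units.mk0 z hz) ^ 2) z 0 (by simp) d e

theorem dead_const {c : ℂ} (hc : c ≠ 0) : Dead S (algebraMap ℂ L c) := by
  obtain ⟨d, hd⟩ := IsAlgClosed.exists_pow_nat_eq c two_pos
  rw [← hd, map_pow]
  apply K.dead_sq
  intro h0
  rw [map_eq_zero] at h0
  apply hc
  rw [← hd, h0]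
  norm_num

theorem ne_of_lt {z : L} (hz : O.valuation z < 1) : 1 + z ≠ 0 := by
  intro h0
  have : z = -1 := by linear_combination h0
  rw [this, Valuation.map_neg, map_one] at hz
  exact lt_irrefl _ hz

theorem dead_pu {z : L} (hz : O.valuation z < 1) : Dead S (1 + z) := by
  refine ⟨Units.mk0 (1 + z) (K.ne_of_lt hz), by simp, fun c d e => ?_⟩
  apply K.pu
  simpa using hz

theorem vpu {z : L} (hz : O.valuation z < 1) : O.valuation (1 + z) = 1 := by
  have := Valuation.map_one_add_of_lt (v := O.valuation) hz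
  exact this

theorem kill1 {u : L} (h : Dead S u) (U A Y C : Lˣ) (hU : (U : L) = u) : S U A Y C = 0 := by
  obtain ⟨b, hb, h2⟩ := h
  have : U = b := Units.ext (hU.trans hb.symm)
  rw [this]
  exact h2 _ _ _

theorem kill2 {u : L} (h : Dead S u) (U A Y C : Lˣ) (hA : (A : L) = u) : S U A Y C = 0 := by
  rw [K.sym.swap1]
  exact K.kill1 h _ _ _ _ hA

theorem kill3 {u : L} (h : Dead S u) (U A Y C : Lˣ) (hY : (Y : L) = u) : S U A Y C = 0 := by
  rw [K.sym.swap2]
  exact K.kill2 h _ _ _ _ hY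

theorem kill4 {u : L} (h : Dead S u) (U A Y C : Lˣ) (hC : (C : L) = u) : S U A Y C = 0 := by
  rw [K.sym.swap3]
  exact K.kill3 h _ _ _ _ hC

theorem vconst {c : ℂ} (hc : c ≠ 0) : O.valuation (algebraMap ℂ L c) = 1 := by
  have h1 : O.valuation (algebraMap ℂ L c) ≤ 1 := (O.valuation_le_one_iff _).mpr (K.cst c)
  have h2 : O.valuation (algebraMap ℂ L c⁻¹) ≤ 1 := (O.valuation_le_one_iff _).mpr (K.cst c⁻¹)
  rw [map_inv₀, map_inv₀] at h2
  have h0 : O.valuation (algebraMap ℂ L c) ≠ 0 := by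
    rw [Valuation.ne_zero_iff]
    simpa using hc
  refine le_antisymm h1 ?_
  exact (inv_le_one₀ (zero_lt_iff.mpr h0)).mp h2

theorem n_one : n 1 = 0 := by
  have := K.nmul 1 1 one_ne_zero one_ne_zero
  rw [mul_one] at this
  omega

theorem n_inv {z : L} (hz : z ≠ 0) : n z⁻¹ = - n z := by
  have := K.nmul z⁻¹ z (inv_ne_zero hz) hz
  rw [inv_mul_cancel₀ hz, K.n_one] at this
  omega

theorem n_div {z w : L} (hz : z ≠ 0) (hw : w ≠ 0) : n (z / w) = n z - n w := by
  rw [div_eq_mul_inv, K.nmul _ _ hz (inv_ne_zero hw), K.n_inv hw]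
  ring

theorem n_sq {z : L} (hz : z ≠ 0) : n (z ^ 2) = 2 * n z := by
  rw [sq, K.nmul _ _ hz hz]
  ring

theorem n_pos {z : L} (hz : z ≠ 0) (h : O.valuation z < 1) : 0 < n z := (K.nlt z hz).mp h

theorem n_zero {z : L} (hz : z ≠ 0) (h : O.valuation z = 1) : n z = 0 := (K.n1 z hz).mp h

theorem gt_iff {z : L} (hz : z ≠ 0) : 1 < O.valuation z ↔ O.valuation z⁻¹ < 1 := by
  rw [map_inv₀, inv_lt_one₀]
  rw [zero_lt_iff, Valuation.ne_zero_iff]
  exact hz

theorem n_pu {z : L} (hz : O.valuation z < 1) : n (1 + z) = 0 :=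
  K.n_zero (K.ne_of_lt hz) (K.vpu hz)

/-- even elements are unit times square -/
theorem even_eq {z : L} (hz : z ≠ 0) (he : Even (n z)) :
    ∃ w e : L, w ≠ 0 ∧ e ≠ 0 ∧ O.valuation e = 1 ∧ z = e * w ^ 2 := by
  obtain ⟨m, hm⟩ := he
  obtain ⟨w, hw, hwm⟩ := K.nsurj m
  refine ⟨w, z / w ^ 2, hw, div_ne_zero hz (pow_ne_zero _ hw), ?_, ?_⟩
  · rw [K.n1 _ (div_ne_zero hz (pow_ne_zero _ hw)), K.n_div hz (pow_ne_zero _ hw), K.n_sq hw]
    omega
  · field_simp

theorem lt_of_n {z w : L} (hz : z ≠ 0) (hw : w ≠ 0) (h : n w < n z) :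
    O.valuation (z / w) < 1 := by
  rw [K.nlt _ (div_ne_zero hz hw), K.n_div hz hw]
  omega


theorem dead_ne {z : L} (h : Dead S z) : z ≠ 0 := by
  obtain ⟨b, rfl, -⟩ := h
  exact b.ne_zero

theorem dead_shift {w z : L} (hw : Dead S w) (h : O.valuation (z / w) < 1) :
    Dead S (w + z) := by
  have hw0 := K.dead_ne hw
  have : w + z = w * (1 + z / w) := by field_simp
  rw [this]
  exact K.dead_mul hw (K.dead_pu h)

theorem dead_cshift {c : ℂ} {z : L} (hc : c ≠ 0) (h : O.valuation z < 1) :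
    Dead S (algebraMap ℂ L c + z) := by
  apply K.dead_shift (K.dead_const hc)
  rw [map_div₀, K.vconst hc, div_one]
  exact h

theorem vcle (c : ℂ) : O.valuation (algebraMap ℂ L c) ≤ 1 :=
  (O.valuation_le_one_iff _).mpr (K.cst c)

theorem vdiv_lt {w t : L} (hw : O.valuation w ≤ 1) (h : 1 < O.valuation t) :
    O.valuation (w / t) < 1 := by
  rw [map_div₀]
  exact (div_lt_one₀ (lt_trans zero_lt_one h)).mpr (lt_of_le_of_lt hw h)

theorem ne_of_gt {t : L} (h : 1 < O.valuation t) : t ≠ 0 := by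
  rintro rfl
  rw [map_zero] at h
  exact absurd h (not_lt.mpr zero_le_one)

/-- `t - w` for `t` with a pole and `w` integral. -/
theorem dead_pole2 {w₁ w₂ t : L} (h₁ : O.valuation w₁ ≤ 1) (h₂ : O.valuation w₂ ≤ 1)
    (h : 1 < O.valuation t) : Dead S ((t - w₁) * (t - w₂)) := by
  have ht := K.ne_of_gt h
  have h1 : O.valuation (-(w₁ / t)) < 1 := by
    rw [Valuation.map_neg]; exact K.vdiv_lt h₁ h
  have h2 : O.valuation (-(w₂ / t)) < 1 := by
    rw [Valuation.map_neg]; exact K.vdiv_lt h₂ h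
  have : (t - w₁) * (t - w₂) = t ^ 2 * ((1 + -(w₁ / t)) * (1 + -(w₂ / t))) := by
    field_simp
    ring
  rw [this]
  exact K.dead_mul (K.dead_sq ht) (K.dead_mul (K.dead_pu h1) (K.dead_pu h2))

theorem n_pole {w t : L} (h₁ : O.valuation w ≤ 1) (h : 1 < O.valuation t) :
    t - w ≠ 0 ∧ n (t - w) = n t := by
  have ht := K.ne_of_gt h
  have h1 : O.valuation (-(w / t)) < 1 := by
    rw [Valuation.map_neg]; exact K.vdiv_lt h₁ h
  have : (t - w) = t * ((1 + -(w / t))) := by
    field_simp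
    ring
  rw [this, K.nmul _ _ ht (K.ne_of_lt h1), K.n_pu h1, add_zero]
  exact ⟨mul_ne_zero ht (K.ne_of_lt h1), rfl⟩

/-- the case where `t` is congruent to `t_i` -/
theorem case_spec (hspec : S_SPEC) (hkk : ∀ m, kk m ≠ 0)
    {ρ : ℂ} {t x y u r P : L}
    (hP : P ^ 2 = ff x y (t ^ 2 + algebraMap ℂ L ρ) + u * r ^ 2)
    (hx : ∀ c : ℂ, x ≠ algebraMap ℂ L c)
    (hy : ∀ c : ℂ, y ≠ algebraMap ℂ L c)
    (hyk : y ≠ (t ^ 2 + algebraMap ℂ L ρ) ^ 2) (i : ℕ)
    (ht : O.valuation (t - algebraMap ℂ L (tt ρ i)) < 1)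
    (U A Y C : Lˣ) (hU : (U : L) = u) (hA : (A : L) = aa x) (hY : (Y : L) = y) :
    S U A Y C = 0 := by
  set k := t ^ 2 + algebraMap ℂ L ρ with hk
  set ki := algebraMap ℂ L (kk i) with hki
  have hti : tt ρ i ^ 2 = kk i - ρ := csq_sq _
  have hti' : algebraMap ℂ L (tt ρ i) ^ 2 = ki - algebraMap ℂ L ρ := by
    rw [← map_pow, hti, map_sub]
  have htle : O.valuation t ≤ 1 := by
    have : t = (t - algebraMap ℂ L (tt ρ i)) + algebraMap ℂ L (tt ρ i) := by ring
    rw [this]
    exact Valuation.map_add_le _ ht.le (K.vcle _)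
  have hkk' : O.valuation (k - ki) < 1 := by
    have : k - ki = (t - algebraMap ℂ L (tt ρ i)) * (t + algebraMap ℂ L (tt ρ i)) := by
      rw [hk]
      linear_combination hti'
    rw [this, map_mul]
    have h2 : O.valuation (t + algebraMap ℂ L (tt ρ i)) ≤ 1 :=
      Valuation.map_add_le _ htle (K.vcle _)
    exact mul_lt_one_of_lt_of_le ht h2
  have hkle : O.valuation k ≤ 1 := by
    rw [hk]
    refine Valuation.map_add_le _ ?_ (K.vcle _)
    rw [map_pow]
    exact pow_le_one₀ zero_le htle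
  have hk2 : O.valuation (k ^ 2 - ki ^ 2) < 1 := by
    have : k ^ 2 - ki ^ 2 = (k - ki) * (k + ki) := by ring
    rw [this, map_mul]
    have h2 : O.valuation (k + ki) ≤ 1 :=
      Valuation.map_add_le _ hkle (K.vcle _)
    exact mul_lt_one_of_lt_of_le hkk' h2
  by_cases hcase : O.valuation (k ^ 2 - ki ^ 2) < O.valuation (y - ki ^ 2)
  · -- specialisation
    have hyi : y - ki ^ 2 ≠ 0 := by
      rw [sub_ne_zero, hki, ← map_pow]
      exact hy _
    have hy0 : y ≠ 0 := by
      have := hy 0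
      rwa [map_zero] at this
    have hy1 : y - 1 ≠ 0 := by
      rw [sub_ne_zero]
      have := hy 1
      rwa [map_one] at this
    have hx0 : x ≠ 0 := by
      have := hx 0
      rwa [map_zero] at this
    have ha0 : aa x ≠ 0 := by
      rw [← hA]
      exact A.ne_zero
    have hFi : ff x y ki ≠ 0 := by
      unfold ff
      exact mul_ne_zero (mul_ne_zero hx0 ha0) (mul_ne_zero (mul_ne_zero hy0 hy1) hyi)
    have hF : ff x y k ≠ 0 := by
      unfold ff
      exact mul_ne_zero (mul_ne_zero hx0 ha0) (mul_ne_zero (mul_ne_zero hy0 hy1)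
        (sub_ne_zero.mpr hyk))
    obtain ⟨φ, hφ⟩ := hspec L x y hy i A Y (Units.mk0 _ hFi) hA hY rfl
    have hB : Sym2 (fun b c => S b c U C) :=
      ⟨fun a b c => K.sym.mul a b c U C, fun a b => K.sym.swap1 a b U C,
        fun b c p q h => K.sym.norm b c p q h U C⟩
    have h1 := hφ M _ hB
    -- the ratio
    have hq : O.valuation (-((k ^ 2 - ki ^ 2) / (y - ki ^ 2))) < 1 := by
      rw [Valuation.map_neg, map_div₀]
      exact (div_lt_one₀ (lt_of_le_of_lt zero_le hcase)).mpr hcase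
    have hrat : ff x y k = ff x y ki * (1 + -((k ^ 2 - ki ^ 2) / (y - ki ^ 2))) := by
      unfold ff
      field_simp
      ring
    have h2 : ∀ c d e, S (Units.mk0 _ hFi) c d e = S (Units.mk0 _ hF) c d e := by
      intro c d e
      have h3 : Units.mk0 _ hF = Units.mk0 _ hFi * Units.mk0 _ (K.ne_of_lt hq) := by
        apply Units.ext
        simpa using hrat
      have h5 : S (Units.mk0 _ (K.ne_of_lt hq)) c d e = 0 := K.kill1 (K.dead_pu hq) _ _ _ _ rfl
      rw [h3, K.sym.mul, h5, add_zero]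
    have h4 : S U (Units.mk0 _ hF) φ C = 0 := by
      apply K.sym.norm U (Units.mk0 _ hF) P r
      rw [Units.val_mk0, hU, hP]
      ring
    calc S U A Y C = S A Y U C := by rw [K.sym.swap1, K.sym.swap2]
      _ = S (Units.mk0 _ hFi) φ U C := h1
      _ = S (Units.mk0 _ hF) φ U C := h2 _ _ _
      _ = S U (Units.mk0 _ hF) φ C := by
        rw [K.sym.swap2, K.sym.swap1]
      _ = 0 := h4
  · have h1 : O.valuation (y - ki ^ 2) < 1 := lt_of_le_of_lt (not_lt.mp hcase) hk2
    have h2 : Dead S y := by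
      have : y = algebraMap ℂ L (kk i ^ 2) + (y - ki ^ 2) := by
        rw [map_pow]; ring
      rw [this]
      exact K.dead_cshift (pow_ne_zero _ (hkk i)) h1
    exact K.kill3 h2 _ _ _ _ hY


theorem v_of_n {z : L} (hz : z ≠ 0) (h : n z = 0) : O.valuation z = 1 := (K.n1 z hz).mpr h

theorem tri (z : L) : O.valuation z < 1 ∨ O.valuation z = 1 ∨ 1 < O.valuation z :=
  lt_trichotomy _ _

theorem n_neg_of_gt {z : L} (h : 1 < O.valuation z) : n z < 0 := by
  have hz := K.ne_of_gt h
  have h1 := K.n_pos (inv_ne_zero hz) ((K.gt_iff hz).mp h)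
  rw [K.n_inv hz] at h1
  omega

/-- `n (w + z) = n w` if `z` is small relative to `w` -/
theorem n_add {w z : L} (hw : w ≠ 0) (h : O.valuation (z / w) < 1) :
    w + z ≠ 0 ∧ n (w + z) = n w := by
  have : w + z = w * (1 + z / w) := by field_simp
  rw [this, K.nmul _ _ hw (K.ne_of_lt h), K.n_pu h, add_zero]
  exact ⟨mul_ne_zero hw (K.ne_of_lt h), rfl⟩

/-- `u` has trivial symbols if `f` is odd -/
theorem f_odd {f u P r : L} (hP : P ^ 2 = f + u * r ^ 2) (hf : f ≠ 0) (hu : u ≠ 0)
    (hun : n u = 0) (hodd : ¬ Even (n f)) : Dead S u := by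
  by_cases hr : r = 0
  · exfalso
    apply hodd
    rw [hr] at hP
    have hP' : f = P ^ 2 := by rw [hP]; ring
    have hP0 : P ≠ 0 := by
      rintro rfl
      apply hf
      rw [hP']
      norm_num
    rw [hP', K.n_sq hP0]
    exact even_two_mul _
  · have hur : u * r ^ 2 ≠ 0 := mul_ne_zero hu (pow_ne_zero _ hr)
    have hnur : n (u * r ^ 2) = 2 * n r := by
      rw [K.nmul _ _ hu (pow_ne_zero _ hr), K.n_sq hr, hun, zero_add]
    have hne : n f ≠ n (u * r ^ 2) := by
      intro h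
      apply hodd
      rw [h, hnur]
      exact even_two_mul _
    rcases lt_or_gt_of_ne hne with hlt | hgt
    · exfalso
      have h1 := K.lt_of_n hur hf hlt
      obtain ⟨h2, h3⟩ := K.n_add hf h1
      rw [← hP] at h2 h3
      apply hodd
      rw [← h3, K.n_sq (by rintro rfl; exact h2 (by norm_num))]
      exact even_two_mul _
    · have h1 := K.lt_of_n hf hur hgt
      obtain ⟨h2, h3⟩ := K.n_add hur h1
      have h4 : u * r ^ 2 + f = P ^ 2 := by rw [hP]; ring
      rw [h4] at h2 h3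
      have hP0 : P ≠ 0 := by rintro rfl; exact h2 (by norm_num)
      have h5 : u = (P ^ 2 / r ^ 2) / (1 + f / (u * r ^ 2)) := by
        have h6 := K.ne_of_lt h1
        rw [eq_div_iff h6, eq_div_iff (pow_ne_zero _ hr)]
        rw [← h4]
        field_simp
      rw [h5]
      exact K.dead_div (K.dead_div (K.dead_sq hP0) (K.dead_sq hr)) (K.dead_pu h1)

/-- `u` is not a unit: `h` has trivial symbols -/
theorem h_dead {ρ : ℂ} (hρ : ρ ≠ 0) {u : L} (h : O.valuation u ≠ 1) :
    Dead S (hh u ρ) := by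
  have hρ' : algebraMap ℂ L ρ ≠ 0 := by simpa using hρ
  rcases K.tri u with h1 | h1 | h1
  · have h2 : O.valuation (-u) < 1 := by rwa [Valuation.map_neg]
    have h3 : O.valuation (-(algebraMap ℂ L ρ * u)) < 1 := by
      rw [Valuation.map_neg, map_mul, K.vconst hρ, one_mul]
      exact h1
    have : hh u ρ = algebraMap ℂ L ρ⁻¹ * ((1 + -u) * (1 + -(algebraMap ℂ L ρ * u))) := by
      unfold hh
      rw [map_inv₀]
      field_simp
      ring
    rw [this]
    exact K.dead_mul (K.dead_const (inv_ne_zero hρ)) (K.dead_mul (K.dead_pu h2) (K.dead_pu h3))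
  · exact absurd h1 h
  · unfold hh
    apply K.dead_pole2 (le_of_eq (map_one _)) (K.vcle _) h1

theorem aa_eq (x : L) : aa x = (x - algebraMap ℂ L (-1)) * (x - algebraMap ℂ L (-9)) := by
  unfold aa
  simp only [map_neg, map_one, map_ofNat]
  ring

/-- behaviour of `a` for `x` with a pole -/
theorem aa_pole {x : L} (h : 1 < O.valuation x) : Dead S (aa x) ∧ n (aa x) = 2 * n x := by
  have h1 := K.n_pole (w := algebraMap ℂ L (-1)) (K.vcle _) h
  have h2 := K.n_pole (w := algebraMap ℂ L (-9)) (K.vcle _) h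
  rw [K.aa_eq]
  refine ⟨K.dead_pole2 (K.vcle _) (K.vcle _) h, ?_⟩
  rw [K.nmul _ _ h1.1 h2.1, h1.2, h2.2]
  ring

theorem aa_zero {x : L} (h : O.valuation x < 1) : Dead S (aa x) := by
  have : aa x = (algebraMap ℂ L 1 + x) * (algebraMap ℂ L 9 + x) := by
    unfold aa
    simp only [map_one, map_ofNat]
    ring
  rw [this]
  exact K.dead_mul (K.dead_cshift one_ne_zero h) (K.dead_cshift (by norm_num) h)

/-- `a` odd: `x` has trivial symbols -/
theorem aa_odd {x : L} (ha : aa x ≠ 0) (h : ¬ Even (n (aa x))) :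
    Dead S x ∧ n x = 0 := by
  have hx1 : O.valuation x ≤ 1 := by
    by_contra hc
    apply h
    rw [(K.aa_pole (not_le.mp hc)).2]
    exact even_two_mul _
  have hle : ∀ c : ℂ, O.valuation (x - algebraMap ℂ L c) ≤ 1 := by
    intro c
    exact Valuation.map_sub_le _ hx1 (K.vcle _)
  rw [K.aa_eq] at ha h
  obtain ⟨ha1, ha2⟩ := mul_ne_zero_iff.mp ha
  have key : ∃ c : ℂ, c ≠ 0 ∧ O.valuation (x - algebraMap ℂ L c) < 1 := by
    rcases (hle (-1)).lt_or_eq with h1 | h1
    · exact ⟨-1, by norm_num, h1⟩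
    rcases (hle (-9)).lt_or_eq with h2 | h2
    · exact ⟨-9, by norm_num, h2⟩
    exfalso
    apply h
    rw [K.nmul _ _ ha1 ha2, K.n_zero ha1 h1, K.n_zero ha2 h2]
    exact Even.zero
  obtain ⟨c, hc, h1⟩ := key
  have hx : x = algebraMap ℂ L c + (x - algebraMap ℂ L c) := by ring
  have hd : Dead S x := by
    rw [hx]
    exact K.dead_cshift hc h1
  refine ⟨hd, ?_⟩
  have h2 := K.n_add (w := algebraMap ℂ L c) (z := x - algebraMap ℂ L c)
    (by simpa using hc) (by rw [map_div₀, K.vconst hc, div_one]; exact h1)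
  rw [← hx] at h2
  rw [h2.2]
  exact K.n_zero (by simpa using hc) (K.vconst hc)

/-- the factor `N = y (y-1) (y-k²)`, for `k` a unit with trivial symbols ... -/
theorem N_zero {y k : L} (hk : O.valuation k = 1) (hy0 : y ≠ 0)
    (h : O.valuation y < 1) :
    n (y * (y - 1) * (y - k ^ 2)) = n y ∧
      ∃ e, Dead S e ∧ y * (y - 1) * (y - k ^ 2) = y * e := by
  have hk0 : k ≠ 0 := by
    rintro rfl
    rw [map_zero] at hk
    exact zero_ne_one hk
  have h2 : O.valuation (-y) < 1 := by rwa [Valuation.map_neg]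
  have h3 : O.valuation (-(y / k ^ 2)) < 1 := by
    rw [Valuation.map_neg, map_div₀, map_pow, hk, one_pow, div_one]
    exact h
  have h4 : y * (y - 1) * (y - k ^ 2) = y * (k ^ 2 * ((1 + -y) * (1 + -(y / k ^ 2)))) := by
    field_simp
    ring
  have hd : Dead S (k ^ 2 * ((1 + -y) * (1 + -(y / k ^ 2)))) :=
    K.dead_mul (K.dead_sq hk0) (K.dead_mul (K.dead_pu h2) (K.dead_pu h3))
  refine ⟨?_, _, hd, h4⟩
  have hkn : n k = 0 := K.n_zero hk0 hk
  rw [h4, K.nmul _ _ hy0 (K.dead_ne hd), K.nmul _ _ (pow_ne_zero _ hk0)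
    (mul_ne_zero (K.ne_of_lt h2) (K.ne_of_lt h3)), K.nmul _ _ (K.ne_of_lt h2) (K.ne_of_lt h3),
    K.n_pu h2, K.n_pu h3, K.n_sq hk0, hkn]
  ring

theorem N_pole {y k : L} (hk : O.valuation k = 1)
    (h : 1 < O.valuation y) :
    n (y * (y - 1) * (y - k ^ 2)) = 3 * n y ∧
      ∃ e, Dead S e ∧ y * (y - 1) * (y - k ^ 2) = y * e := by
  have hy0 := K.ne_of_gt h
  have hk2 : O.valuation (k ^ 2) ≤ 1 := by rw [map_pow, hk, one_pow]
  have h1 := K.n_pole (w := 1) (le_of_eq (map_one _)) h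
  have h2 := K.n_pole (w := k ^ 2) hk2 h
  refine ⟨?_, (y - 1) * (y - k ^ 2), K.dead_pole2 (le_of_eq (map_one _)) hk2 h, by ring⟩
  rw [K.nmul _ _ (mul_ne_zero hy0 h1.1) h2.1, K.nmul _ _ hy0 h1.1, h1.2, h2.2]
  ring


theorem S_sq_self (a d e : Lˣ) : S a a d e = 0 := by
  obtain ⟨c, hc⟩ := IsAlgClosed.exists_pow_nat_eq (-1 : ℂ) two_pos
  refine K.sym.norm a a 0 (algebraMap ℂ L c) ?_ d e
  rw [← map_pow, hc, map_neg, map_one]
  ring

/-- case 2, `u` a unit -/
theorem case_unit {Mur : AddSubgroup M}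
    (hur : ∀ b c d e : Lˣ, O.valuation (b : L) = 1 → O.valuation (c : L) = 1 →
      O.valuation (d : L) = 1 → O.valuation (e : L) = 1 → S b c d e ∈ Mur)
    {k x y u r P : L} (hk : O.valuation k = 1)
    (hP : P ^ 2 = ff x y k + u * r ^ 2)
    (hx0 : x ≠ 0) (hy0 : y ≠ 0) (hy1 : y ≠ 1) (hyk : y ≠ k ^ 2)
    (hu : O.valuation u = 1)
    (U A Y C : Lˣ) (hU : (U : L) = u) (hA : (A : L) = aa x) (hY : (Y : L) = y)
    (hC : O.valuation (C : L) = 1) :
    S U A Y C ∈ Mur := by
  have hu0 : u ≠ 0 := by rw [← hU]; exact U.ne_zero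
  have ha0 : aa x ≠ 0 := by rw [← hA]; exact A.ne_zero
  have hk0 : k ≠ 0 := by
    rintro rfl
    rw [map_zero] at hk
    exact zero_ne_one hk
  have hN0 : y * (y - 1) * (y - k ^ 2) ≠ 0 :=
    mul_ne_zero (mul_ne_zero hy0 (sub_ne_zero.mpr hy1)) (sub_ne_zero.mpr hyk)
  have hf0 : ff x y k ≠ 0 := mul_ne_zero (mul_ne_zero hx0 ha0) hN0
  have hun : n u = 0 := K.n_zero hu0 hu
  have hfn : n (ff x y k) = n x + n (aa x) + n (y * (y - 1) * (y - k ^ 2)) := by
    unfold ff
    rw [K.nmul _ _ (mul_ne_zero hx0 ha0) hN0, K.nmul _ _ hx0 ha0]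
  have zero_mem' : ∀ z : M, z = 0 → z ∈ Mur := by
    rintro z rfl
    exact Mur.zero_mem
  by_cases hf : Even (n (ff x y k))
  swap
  · exact zero_mem' _ (K.kill1 (K.f_odd hP hf0 hu0 hun hf) _ _ _ _ hU)
  by_cases hae : Even (n (aa x))
  · by_cases hye : Even (n y)
    · -- both even
      obtain ⟨w, e, hw, he, hev, hwe⟩ := K.even_eq ha0 hae
      obtain ⟨w', e', hw', he', hev', hwe'⟩ := K.even_eq hy0 hye
      have hA' : A = Units.mk0 e he * Units.mk0 _ (pow_ne_zero 2 hw) := by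
        apply Units.ext
        simpa [hA] using hwe
      have hY' : Y = Units.mk0 e' he' * Units.mk0 _ (pow_ne_zero 2 hw') := by
        apply Units.ext
        simpa [hY] using hwe'
      have h1 : ∀ a c d : Lˣ, S (Units.mk0 _ (pow_ne_zero 2 hw)) a c d = 0 :=
        fun a c d => K.kill1 (K.dead_sq hw) _ _ _ _ rfl
      have h2 : ∀ a c d : Lˣ, S (Units.mk0 _ (pow_ne_zero 2 hw')) a c d = 0 :=
        fun a c d => K.kill1 (K.dead_sq hw') _ _ _ _ rfl
      have h3 : S U A Y C = S (Units.mk0 e he) U Y C := by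
        rw [K.sym.swap1, hA', K.sym.mul, h1, add_zero]
      have h4 : S (Units.mk0 e he) U Y C = S (Units.mk0 e' he') (Units.mk0 e he) U C := by
        rw [K.sym.swap2, K.sym.swap1, hY', K.sym.mul, h2, add_zero]
      rw [h3, h4]
      exact hur _ _ _ _ hev' hev (by rw [hU]; exact hu) hC
    · -- a even, y odd
      have hnN : ¬ Even (n (y * (y - 1) * (y - k ^ 2))) := by
        rcases K.tri y with h | h | h
        · rw [(K.N_zero hk hy0 h).1]
          exact hye
        · exfalso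
          apply hye
          rw [K.n_zero hy0 h]
          exact Even.zero
        · rw [(K.N_pole hk h).1]
          intro h2
          apply hye
          rw [Int.even_mul] at h2
          rcases h2 with h2 | h2
          · exact absurd h2 (by decide)
          · exact h2
      have hnx : ¬ Even (n x) := by
        intro h
        apply hnN
        rw [hfn, Int.even_add, Int.even_add] at hf
        tauto
      rcases K.tri x with h | h | h
      · exact zero_mem' _ (K.kill2 (K.aa_zero h) _ _ _ _ hA)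
      · exfalso
        apply hnx
        rw [K.n_zero hx0 h]
        exact Even.zero
      · exact zero_mem' _ (K.kill2 (K.aa_pole h).1 _ _ _ _ hA)
  · obtain ⟨hdx, hnx⟩ := K.aa_odd ha0 hae
    by_cases hye : Even (n y)
    · -- a odd, y even
      have hnN : ¬ Even (n (y * (y - 1) * (y - k ^ 2))) := by
        intro h
        apply hae
        rw [hfn, hnx, zero_add, Int.even_add] at hf
        tauto
      rcases K.tri y with h | h | h
      · exfalso
        apply hnN
        rw [(K.N_zero hk hy0 h).1]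
        exact hye
      · -- y a unit
        have hy1' := sub_ne_zero.mpr hy1
        have hyk' := sub_ne_zero.mpr hyk
        have h1le : O.valuation (y - 1) ≤ 1 := Valuation.map_sub_le _ h.le (le_of_eq (map_one _))
        have hk2 : O.valuation (k ^ 2) = 1 := by rw [map_pow, hk, one_pow]
        have h2le : O.valuation (y - k ^ 2) ≤ 1 := Valuation.map_sub_le _ h.le hk2.le
        rcases h1le.lt_or_eq with h1 | h1
        · have hd : Dead S y := by
            have : y = 1 + (y - 1) := by ring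
            rw [this]
            exact K.dead_pu h1
          exact zero_mem' _ (K.kill3 hd _ _ _ _ hY)
        rcases h2le.lt_or_eq with h2 | h2
        · have hd : Dead S y := by
            have : y = k ^ 2 + (y - k ^ 2) := by ring
            rw [this]
            apply K.dead_shift (K.dead_sq hk0)
            rw [map_div₀, hk2, div_one]
            exact h2
          exact zero_mem' _ (K.kill3 hd _ _ _ _ hY)
        exfalso
        apply hnN
        rw [K.nmul _ _ (mul_ne_zero hy0 hy1') hyk', K.nmul _ _ hy0 hy1', K.n_zero hy0 h,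
          K.n_zero hy1' h1, K.n_zero hyk' h2]
        exact Even.zero
      · exfalso
        apply hnN
        rw [(K.N_pole hk h).1]
        exact hye.mul_left _
    · -- a odd, y odd
      have key : ∃ e, Dead S e ∧ y * (y - 1) * (y - k ^ 2) = y * e := by
        rcases K.tri y with h | h | h
        · exact (K.N_zero hk hy0 h).2
        · exfalso
          apply hye
          rw [K.n_zero hy0 h]
          exact Even.zero
        · exact (K.N_pole hk h).2
      obtain ⟨e, ⟨e', he', hde⟩, hN⟩ := key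
      obtain ⟨x', hx', hdx⟩ := hdx
      have hF : Units.mk0 _ hf0 = x' * A * (Y * e') := by
        apply Units.ext
        simp only [Units.val_mk0, Units.val_mul, hx', hA, hY, he']
        rw [← hN]
        rfl
      have h1 : S U (Units.mk0 _ hf0) A C = 0 := by
        apply K.sym.norm U (Units.mk0 _ hf0) P r
        rw [Units.val_mk0, hU, hP]
        ring
      have h2 : S (Units.mk0 _ hf0) U A C = S A U A C + S Y U A C := by
        rw [hF, K.sym.mul, K.sym.mul, K.sym.mul, hdx, hde, zero_add, add_zero]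
      have h3 : S A U A C = 0 := by
        rw [K.sym.swap2]
        exact K.S_sq_self _ _ _
      apply zero_mem'
      have h4 : S U A Y C = S Y U A C := by
        rw [K.sym.swap2, K.sym.swap1]
      rw [h4]
      rw [h3, zero_add, K.sym.swap1, h1] at h2
      exact h2.symm

end Ctx

end Ctx

/-- PACKET ABSU (only two of the properties of `S_SEQ` are used). -/
theorem absu' (hkk : ∀ m, kk m ≠ 0) (hspec : S_SPEC) : S_ABSU := by
  intro L _ _ M _ S hS O hO hDVR Mur hpu hur ρ hρ hρk t x y u r s P Q hP hQ ht hx hy hu hyk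
    i j hij U A Y C hU hA hY hC
  obtain ⟨n, hn1, hn2, hn3, hn4⟩ := exists_val O hDVR
  have K : Ctx S O n := ⟨hS, hO, hn1, hn2, hn3, hn4, hpu⟩
  have zero_mem' : ∀ z : M, z = 0 → z ∈ Mur := by
    rintro z rfl
    exact Mur.zero_mem
  by_cases hpole : 1 < O.valuation t
  · apply zero_mem'
    exact K.kill4 (K.dead_pole2 (K.vcle (tt ρ i)) (K.vcle (tt ρ j)) hpole) _ _ _ _ hC
  have htle : O.valuation t ≤ 1 := not_lt.mp hpole
  have hle : ∀ c : ℂ, O.valuation (t - algebraMap ℂ L c) ≤ 1 := fun c =>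
    Valuation.map_sub_le _ htle (K.vcle _)
  by_cases hcong : ∃ c : ℂ, O.valuation (t - algebraMap ℂ L c) < 1
  · obtain ⟨c, hc⟩ := hcong
    apply zero_mem'
    by_cases hci : c = tt ρ i
    · subst hci
      exact K.case_spec hspec hkk hP hx hy hyk i hc U A Y C hU hA hY
    by_cases hcj : c = tt ρ j
    · subst hcj
      exact K.case_spec hspec hkk hP hx hy hyk j hc U A Y C hU hA hY
    have hd : Dead S ((t - algebraMap ℂ L (tt ρ i)) * (t - algebraMap ℂ L (tt ρ j))) := by
      have h1 : t - algebraMap ℂ L (tt ρ i) =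
          algebraMap ℂ L (c - tt ρ i) + (t - algebraMap ℂ L c) := by
        rw [map_sub]; ring
      have h2 : t - algebraMap ℂ L (tt ρ j) =
          algebraMap ℂ L (c - tt ρ j) + (t - algebraMap ℂ L c) := by
        rw [map_sub]; ring
      rw [h1, h2]
      exact K.dead_mul (K.dead_cshift (sub_ne_zero.mpr hci) hc)
        (K.dead_cshift (sub_ne_zero.mpr hcj) hc)
    exact K.kill4 hd _ _ _ _ hC
  push Not at hcong
  have heq : ∀ c : ℂ, O.valuation (t - algebraMap ℂ L c) = 1 := fun c =>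
    le_antisymm (hle c) (hcong c)
  have hCv : O.valuation (C : L) = 1 := by
    rw [hC, map_mul, heq, heq, one_mul]
  have hk : O.valuation (t ^ 2 + algebraMap ℂ L ρ) = 1 := by
    obtain ⟨d, hd⟩ := IsAlgClosed.exists_pow_nat_eq (-ρ) two_pos
    have h1 : algebraMap ℂ L ρ = - (algebraMap ℂ L d) ^ 2 := by
      rw [← map_pow, hd, map_neg, neg_neg]
    have h2 : t ^ 2 + algebraMap ℂ L ρ = (t - algebraMap ℂ L d) * (t - algebraMap ℂ L (-d)) := by
      rw [h1, map_neg]; ring
    rw [h2, map_mul, heq, heq, one_mul]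
  have hx0 : x ≠ 0 := by
    have := hx 0
    rwa [map_zero] at this
  have hy0 : y ≠ 0 := by
    have := hy 0
    rwa [map_zero] at this
  have hy1 : y ≠ 1 := by
    have := hy 1
    rwa [map_one] at this
  have hu1 : u - 1 ≠ 0 := by
    rw [sub_ne_zero]
    have := hu 1
    rwa [map_one] at this
  by_cases huv : O.valuation u = 1
  · exact K.case_unit hur hk hP hx0 hy0 hy1 hyk huv U A Y C hU hA hY hCv
  · apply zero_mem'
    have hh0 : hh u ρ ≠ 0 := mul_ne_zero hu1 (sub_ne_zero.mpr (hu _))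
    have hH := K.h_dead hρ huv
    have h1 : S A (U * Units.mk0 _ hh0) Y C = 0 := by
      apply K.sym.norm A (U * Units.mk0 _ hh0) Q s
      rw [Units.val_mul, Units.val_mk0, hU, hA, hQ]
      ring
    rw [K.sym.swap1, K.sym.mul, K.kill1 hH (Units.mk0 _ hh0) A Y C rfl, add_zero] at h1
    exact h1

theorem absu : S_SEQ → S_SPEC → S_ABSU := fun hseq hspec =>
  absu' hseq.2.2.2.2.2.1 hspec

end Helper98.Absu
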